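import Pool.Agent.Q264.HM.Stm

/-!
# All words of bounded length: membership and primitive recursiveness
-/

set_option autoImplicit false

namespace Pool.Agent.Q254.HMW

open Pool.Agent.Q264.HM

theorem mem_words {γ : Type} (L : List γ) : ∀ (n : ℕ) (u : List γ),
    u ∈ words L n ↔ u.length ≤ n ∧ ∀ p ∈ u, p ∈ L := by
  intro n
  induction n with
  | zero =>
    intro u
    cases u with
    | nil => simp [words]
    | cons a u => simp [words]
  | succ n ih =>
    intro u
    cases u with
    | nil => simp [words]
    | cons a u =>
      simp only [words, List.mem_cons, List.mem_flatMap, List.mem_map, List.length_cons,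
        reduceCtorEq, false_or]
      constructor
      · rintro ⟨w, hw, p, hp, h⟩
        obtain ⟨rfl, rfl⟩ := List.cons.inj h
        obtain ⟨h1, h2⟩ := (ih w).1 hw
        refine ⟨by omega, fun q hq => ?_⟩
        rcases hq with rfl | hq
        · exact hp
        · exact h2 q hq
      · rintro ⟨h1, h2⟩
        exact ⟨u, (ih u).2 ⟨by omega, fun q hq => h2 q (Or.inr hq)⟩, a, h2 a (Or.inl rfl), rfl⟩

theorem primrec_words (γ : Type) [Primcodable γ] :
    Primrec₂ fun (L : List γ) (n : ℕ) => words L n := by
  have hg : Primrec₂ fun (L : List γ) (q : ℕ × List (List γ)) =>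
      ([] : List γ) :: q.2.flatMap fun w => L.map fun p => p :: w := by
    have h1 : Primrec fun (x : List γ × (ℕ × List (List γ))) =>
        x.2.2.flatMap fun w => x.1.map fun p => p :: w := by
      have h2 : Primrec fun (x : List γ × (ℕ × List (List γ))) => x.2.2 :=
        Primrec.snd.comp Primrec.snd
      have h3 : Primrec₂ fun (x : List γ × (ℕ × List (List γ))) (w : List γ) =>
          x.1.map fun p => p :: w := by
        have h4 : Primrec fun (y : (List γ × (ℕ × List (List γ))) × List γ) => y.1.1 :=
          Primrec.fst.comp Primrec.fst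
        have h5 : Primrec₂ fun (y : (List γ × (ℕ × List (List γ))) × List γ) (p : γ) =>
            p :: y.2 := (Primrec.list_cons.comp Primrec.snd (Primrec.snd.comp Primrec.fst)).to₂
        exact (Primrec.list_map h4 h5).to₂
      exact Primrec.list_flatMap h2 h3
    have h6 : Primrec fun (_ : List γ × (ℕ × List (List γ))) => ([] : List γ) := Primrec.const _
    exact (Primrec.list_cons.comp h6 h1).to₂
  have h := Primrec.nat_rec (Primrec.const ([[]] : List (List γ))) hg
  refine h.of_eq fun L n => ?_
  induction n with
  | zero => rfl
  | succ n ih =>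
    show (([] : List γ) :: _) = _
    rw [words]
    simp only at ih ⊢
    rw [ih]

/-- **WORDS.** -/
theorem t_WORDS : S_WORDS := ⟨fun _ L n u => mem_words L n u, fun γ _ => primrec_words γ⟩

end Pool.Agent.Q254.HMW
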